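import Mathlib

/-!
# Irreducible elementary nets of modules over a principal ideal domain need not be closed

For every `n ≥ 2` there is an irreducible elementary net of order `n` over the number field
`K = ℚ(i)`, consisting of `ℤ`-submodules of `K`, which is not closed.

Take `σ₁₂ = {x + y i : x, y ∈ ℤ, x even}`, `σ₂₁ = ℤ[i]` and `σᵢⱼ = 2 ℤ[i]` for all other `i ≠ j`.
Then `t₁₂(i²) = w t₂₁(-1) w⁻¹` with `w = t₁₂(i) t₂₁(-i⁻¹) t₁₂(i)` lies in `E(σ)`, but `i² = -1`
is not in `σ₁₂`.
-/

set_option autoImplicit false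

namespace Pool.Agent.Results.MP_9bf48e_al.NotClosed

open Matrix

section Definitions

variable {R K : Type*} [CommRing R] [Field K] [Algebra R K] {n : ℕ}

/-- A family `σ` of `R`-submodules of `K` is an elementary net of order `n` if
`σ i r * σ r j ⊆ σ i j` whenever `i, r, j` are pairwise distinct. (Only the entries `σ i j` with
`i ≠ j` matter.) -/
def IsElementaryNet (σ : Fin n → Fin n → Submodule R K) : Prop :=
  ∀ i r j, i ≠ r → r ≠ j → i ≠ j → ∀ a ∈ σ i r, ∀ b ∈ σ r j, a * b ∈ σ i j

/-- The net is irreducible if all its entries `σ i j`, `i ≠ j`, are nonzero. -/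
def IsIrreducibleNet (σ : Fin n → Fin n → Submodule R K) : Prop :=
  ∀ i j, i ≠ j → σ i j ≠ ⊥

/-- The elementary net subgroup `E(σ)` of `GL(n, K)`: it is generated by all elementary
transvections `t i j a = 1 + a e i j` with `i ≠ j` and `a ∈ σ i j`. -/
def netSubgroup (σ : Fin n → Fin n → Submodule R K) : Subgroup (GL (Fin n) K) :=
  Subgroup.closure {g | ∃ i j, i ≠ j ∧ ∃ a ∈ σ i j, (g : Matrix (Fin n) (Fin n) K) =
    transvection i j a}

/-- The net is closed if every elementary transvection in `E(σ)` is one of the generating ones. -/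
def IsClosedNet (σ : Fin n → Fin n → Submodule R K) : Prop :=
  ∀ i j, i ≠ j → ∀ a : K, ∀ g ∈ netSubgroup σ,
    (g : Matrix (Fin n) (Fin n) K) = transvection i j a → a ∈ σ i j

end Definitions

section Proof

variable {K : Type*} [Field K] {n : ℕ}

/-- the elementary transvection as an element of `GL` -/
def tt (i j : Fin n) (h : i ≠ j) (a : K) : GL (Fin n) K where
  val := transvection i j a
  inv := transvection i j (-a)
  val_inv := by rw [transvection_mul_transvection_same _ _ h]; simp
  inv_val := by rw [transvection_mul_transvection_same _ _ h]; simp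

lemma word {i j : Fin n} (h : i ≠ j) {v : K} (hv : v ≠ 0) :
    tt i j h v * tt j i h.symm (-v⁻¹) * tt i j h v * tt j i h.symm (-1) *
      (tt i j h v * tt j i h.symm (-v⁻¹) * tt i j h v)⁻¹ = tt i j h (v ^ 2) := by
  rw [mul_inv_eq_iff_eq_mul]
  ext1
  simp only [tt, Units.val_mul, transvection]
  set E : Matrix (Fin n) (Fin n) K := single i j 1 with hE
  set F : Matrix (Fin n) (Fin n) K := single j i 1 with hF
  have e1 : ∀ a : K, single i j a = a • E := fun a => by simp [hE]
  have e2 : ∀ a : K, single j i a = a • F := fun a => by simp [hF]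
  rw [e1, e2, e1, e2]
  have EE : E * E = 0 := by simp [hE, h.symm]
  have FF : F * F = 0 := by simp [hF, h]
  have EFE : E * (F * E) = E := by simp [hE, hF]
  have FEF : F * (E * F) = F := by simp [hE, hF]
  have EFE' : ∀ X, E * (F * (E * X)) = E * X := fun X => by
    rw [← mul_assoc F, ← mul_assoc E, EFE]
  have FEF' : ∀ X, F * (E * (F * X)) = F * X := fun X => by
    rw [← mul_assoc E, ← mul_assoc F, FEF]
  have EE' : ∀ X, E * (E * X) = 0 := fun X => by rw [← mul_assoc, EE, zero_mul]
  simp only [mul_add, add_mul, mul_one, one_mul, smul_mul_assoc, mul_smul_comm, mul_assoc, EE, FF,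
    EFE, FEF, EE', smul_zero, add_zero, mul_zero]
  match_scalars <;> field_simp <;> ring

/-- `2 ℤ[i]` -/
def C (i : K) : Submodule ℤ K := Submodule.span ℤ {2, 2 * i}

/-- `{x + y i : x, y ∈ ℤ, x even}` -/
def A (i : K) : Submodule ℤ K := Submodule.span ℤ {2, i}

/-- `ℤ[i]` -/
def B (i : K) : Submodule ℤ K := Submodule.span ℤ {1, i}

lemma C_le_A (i : K) : C i ≤ A i := by
  intro x hx
  obtain ⟨a, b, rfl⟩ := Submodule.mem_span_pair.1 hx
  exact Submodule.mem_span_pair.2 ⟨a, 2 * b, by simp only [zsmul_eq_mul]; push_cast; ring⟩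

lemma C_le_B (i : K) : C i ≤ B i := by
  intro x hx
  obtain ⟨a, b, rfl⟩ := Submodule.mem_span_pair.1 hx
  exact Submodule.mem_span_pair.2 ⟨2 * a, 2 * b, by simp only [zsmul_eq_mul]; push_cast; ring⟩

lemma A_le_B (i : K) : A i ≤ B i := by
  intro x hx
  obtain ⟨a, b, rfl⟩ := Submodule.mem_span_pair.1 hx
  exact Submodule.mem_span_pair.2 ⟨2 * a, b, by simp only [zsmul_eq_mul]; push_cast; ring⟩

lemma mul_mem_C {i : K} (hi : i ^ 2 = -1) {x y : K} (hx : x ∈ C i) (hy : y ∈ B i) :
    x * y ∈ C i := by
  obtain ⟨a, b, rfl⟩ := Submodule.mem_span_pair.1 hx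
  obtain ⟨c, d, rfl⟩ := Submodule.mem_span_pair.1 hy
  refine Submodule.mem_span_pair.2 ⟨a * c - b * d, a * d + b * c, ?_⟩
  simp only [zsmul_eq_mul]
  push_cast
  linear_combination (-2 * b * d : K) * hi

lemma neg_one_notMem [CharZero K] {i : K} (hi : i ^ 2 = -1) : i ^ 2 ∉ A i := by
  intro h
  obtain ⟨a, b, h⟩ := Submodule.mem_span_pair.1 h
  rw [hi] at h
  simp only [zsmul_eq_mul] at h
  have h1 : ((2 * a + 1 : ℤ) : K) ^ 2 + (b : K) ^ 2 = 0 := by
    push_cast
    linear_combination (2 * a + 1 - b * i : K) * h + (b : K) ^ 2 * hi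
  have h2 : (2 * a + 1) ^ 2 + b ^ 2 = 0 := by exact_mod_cast h1
  have h3 : (2 * a + 1) ^ 2 = 0 := by nlinarith [sq_nonneg (2 * a + 1), sq_nonneg b]
  have h4 : 2 * a + 1 = 0 := by simpa using h3
  omega

/-- the net -/
noncomputable def net (n : ℕ) (i : K) (k l : Fin n) : Submodule ℤ K :=
  if k.1 = 0 ∧ l.1 = 1 then A i else if k.1 = 1 ∧ l.1 = 0 then B i else C i

lemma C_le_net (i : K) (k l : Fin n) : C i ≤ net n i k l := by
  unfold net
  split_ifs
  · exact C_le_A i
  · exact C_le_B i
  · exact le_rfl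

lemma net_le_B (i : K) (k l : Fin n) : net n i k l ≤ B i := by
  unfold net
  split_ifs
  · exact A_le_B i
  · exact le_rfl
  · exact C_le_B i

/-- **Counterexample.** If `K` is a field of characteristic zero with `i ^ 2 = -1`, then for every
`n ≥ 2` the net `net n i` is an irreducible elementary net of `ℤ`-modules over `K`, which is not
closed. -/
theorem counterexample [CharZero K] {i : K} (hi : i ^ 2 = -1) (hn : 2 ≤ n) :
    IsElementaryNet (net n i) ∧ IsIrreducibleNet (net n i) ∧ ¬ IsClosedNet (net n i) := by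
  have hi0 : i ≠ 0 := by
    rintro rfl
    norm_num at hi
  refine ⟨?_, ?_, ?_⟩
  · intro k r l hkr hrl hkl a ha b hb
    refine C_le_net i k l ?_
    have hkr' : (k : ℕ) ≠ r := fun h => hkr (Fin.ext h)
    have hrl' : (r : ℕ) ≠ l := fun h => hrl (Fin.ext h)
    have hkl' : (k : ℕ) ≠ l := fun h => hkl (Fin.ext h)
    by_cases h : ((k : ℕ) = 0 ∧ (r : ℕ) = 1) ∨ ((k : ℕ) = 1 ∧ (r : ℕ) = 0)
    · have hb' : b ∈ C i := by
        have : net n i r l = C i := by
          unfold net
          rw [if_neg (by omega), if_neg (by omega)]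
        rwa [this] at hb
      rw [mul_comm]
      exact mul_mem_C hi hb' (net_le_B i k r ha)
    · have ha' : a ∈ C i := by
        have : net n i k r = C i := by
          unfold net
          rw [if_neg (by tauto), if_neg (by tauto)]
        rwa [this] at ha
      exact mul_mem_C hi ha' (net_le_B i r l hb)
  · intro k l _ h
    have h2 : (2 : K) ∈ net n i k l := C_le_net i k l (Submodule.subset_span (by simp))
    rw [h, Submodule.mem_bot] at h2
    norm_num at h2
  · intro hcl
    have h01 : (⟨0, by omega⟩ : Fin n) ≠ ⟨1, by omega⟩ := by simp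
    have hA : net n i ⟨0, by omega⟩ ⟨1, by omega⟩ = A i := by simp [net]
    have hB : net n i ⟨1, by omega⟩ ⟨0, by omega⟩ = B i := by simp [net]
    have key := word h01 hi0
    have g1 : tt _ _ h01 i ∈ netSubgroup (net n i) :=
      Subgroup.subset_closure ⟨_, _, h01, i, by rw [hA]; exact Submodule.subset_span (by simp), rfl⟩
    have g2 : tt _ _ h01.symm (-i⁻¹) ∈ netSubgroup (net n i) :=
      Subgroup.subset_closure ⟨_, _, h01.symm, -i⁻¹, by
        rw [hB]
        have : -i⁻¹ = i := by
          field_simp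
          linear_combination -hi
        rw [this]
        exact Submodule.subset_span (by simp), rfl⟩
    have g3 : tt _ _ h01.symm (-1) ∈ netSubgroup (net n i) :=
      Subgroup.subset_closure ⟨_, _, h01.symm, -1, by
        rw [hB]
        exact Submodule.neg_mem _ (Submodule.subset_span (by simp)), rfl⟩
    have g4 : tt _ _ h01 (i ^ 2) ∈ netSubgroup (net n i) := by
      rw [← key]
      have gw := Subgroup.mul_mem _ (Subgroup.mul_mem _ g1 g2) g1
      exact Subgroup.mul_mem _ (Subgroup.mul_mem _ gw g3) (Subgroup.inv_mem _ gw)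
    have := hcl _ _ h01 (i ^ 2) _ g4 rfl
    rw [hA] at this
    exact neg_one_notMem hi this

end Proof

/-- For every `n ≥ 2` there are a number field `K` (a finite extension of the fraction field `ℚ`
of the principal ideal domain `ℤ`) and an irreducible elementary net of order `n` over `K`
consisting of `ℤ`-submodules of `K`, which is not closed. -/
theorem result (n : ℕ) (hn : 2 ≤ n) :
    ∃ (K : Type) (_ : Field K) (_ : NumberField K) (σ : Fin n → Fin n → Submodule ℤ K),
      IsElementaryNet σ ∧ IsIrreducibleNet σ ∧ ¬ IsClosedNet σ := by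
  have hI : IsIntegral ℚ Complex.I := ⟨Polynomial.X ^ 2 + 1, by monicity!, by simp⟩
  haveI : FiniteDimensional ℚ (IntermediateField.adjoin ℚ {Complex.I}) :=
    IntermediateField.adjoin.finiteDimensional hI
  let K := IntermediateField.adjoin ℚ {Complex.I}
  have hi : (⟨Complex.I, IntermediateField.mem_adjoin_simple_self ℚ Complex.I⟩ : K) ^ 2 = -1 := by
    apply Subtype.ext
    simp
  exact ⟨K, inferInstance, ⟨⟩, _, counterexample hi hn⟩

end Pool.Agent.Results.MP_9bf48e_al.NotClosed
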